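import Pool.Agent.H61.SuA

set_option autoImplicit false

namespace Pool.Agent.Results.MP_ca7eb7_al.Five

open Pool.Agent.H61.Su

theorem result (n : ℕ) (hn : 3 ≤ n) (A : Matrix.specialUnitaryGroup (Fin n) ℂ) :
    ∃ J₁ J₂ J₃ J₄ J₅ : Matrix.specialUnitaryGroup (Fin n) ℂ,
      J₁ * J₁ = 1 ∧ J₂ * J₂ = 1 ∧ J₃ * J₃ = 1 ∧ J₄ * J₄ = 1 ∧ J₅ * J₅ = 1 ∧
      A = J₁ * J₂ * J₃ * J₄ * J₅ := by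
  obtain ⟨m, rfl⟩ : ∃ m, n = m + 1 := ⟨n - 1, by omega⟩
  obtain ⟨J₁, J₂, J₃, J₄, J₅, h₁, h₂, h₃, h₄, h₅, -, h⟩ := five hn A.1 A.2
  exact ⟨⟨J₁, h₁.1⟩, ⟨J₂, h₂.1⟩, ⟨J₃, h₃.1⟩, ⟨J₄, h₄.1⟩, ⟨J₅, h₅.1⟩, Subtype.ext h₁.2,
    Subtype.ext h₂.2, Subtype.ext h₃.2, Subtype.ext h₄.2, Subtype.ext h₅.2, Subtype.ext h.symm⟩

end Pool.Agent.Results.MP_ca7eb7_al.Five
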